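import Mathlib
import Pool.Agent.H91.Fatou.Main

/-!
# Hyperbolic maps near degenerate rational maps

The definitions `num`, `den`, `chord`, `Attracting`, `Captured`, `IsHyperbolic` used in the statement
are in `Pool/Agent/H91/Fatou/Defs.lean`.
-/

set_option autoImplicit false

namespace Pool.Agent.H91.Old.HyperbolicBoundary

open Polynomial Pool.Agent.H91.Fatou

/-- Let `1 ≤ e < d`, let `(A, B)` be a pair of polynomials of degree at most `e` which, if `e ≥ 2`, is
a limit of hyperbolic rational maps of degree `e` (there is no assumption for `e = 1`), and let `H`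
be a polynomial of degree at most `d - e`.  Then the degenerate pair `(A H, B H)` is approximated by
degenerate pairs `(A' H', B' H')` of the same kind all of whose neighbours in the space of rational
maps of degree exactly `d` are hyperbolic; and such neighbours exist arbitrarily close to
`(A' H', B' H')`. -/
theorem result (d e : ℕ) (he : 1 ≤ e) (hed : e < d) (A B H : Polynomial ℂ)
    (hA : A.natDegree ≤ e) (hB : B.natDegree ≤ e) (hH : H.natDegree ≤ d - e)
    (hlim : 2 ≤ e → ∀ η : ℝ, 0 < η → ∃ P Q : Polynomial ℂ, IsCoprime P Q ∧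
      max P.natDegree Q.natDegree = e ∧ IsHyperbolic P Q ∧
      ∀ i : ℕ, ‖P.coeff i - A.coeff i‖ < η ∧ ‖Q.coeff i - B.coeff i‖ < η)
    (ε : ℝ) (hε : 0 < ε) :
    ∃ A' B' H' : Polynomial ℂ,
      IsCoprime A' B' ∧ max A'.natDegree B'.natDegree = e ∧ H'.natDegree = d - e ∧
      (∀ i : ℕ, ‖A'.coeff i - A.coeff i‖ < ε ∧ ‖B'.coeff i - B.coeff i‖ < ε ∧
        ‖H'.coeff i - H.coeff i‖ < ε) ∧
      (∃ ρ : ℝ, 0 < ρ ∧ ∀ P Q : Polynomial ℂ, IsCoprime P Q →
        max P.natDegree Q.natDegree = d →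
        (∀ i : ℕ, ‖P.coeff i - (A' * H').coeff i‖ < ρ ∧ ‖Q.coeff i - (B' * H').coeff i‖ < ρ) →
        IsHyperbolic P Q) ∧
      ∀ η : ℝ, 0 < η → ∃ P Q : Polynomial ℂ, IsCoprime P Q ∧ max P.natDegree Q.natDegree = d ∧
        ∀ i : ℕ, ‖P.coeff i - (A' * H').coeff i‖ < η ∧ ‖Q.coeff i - (B' * H').coeff i‖ < η :=
  main d e he hed A B H hA hB hH hlim ε hε

end Pool.Agent.H91.Old.HyperbolicBoundary
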