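import Mathlib
import Pool.Agent.H91.LD.Main

/-!
# Every rational map of large degree is close to a hyperbolic map of the same degree
-/

set_option autoImplicit false

namespace Pool.Agent.H91.Old.LargeDegree

open Polynomial Filter Topology

/-- `P/Q` is hyperbolic with a single attracting fixed point `z` attracting all the critical points:
the conclusion of the frozen statement `S05373`, with one `z` for all `c`, and `n = 1`. -/
def IsHyperbolicOne (P Q : Polynomial ℂ) : Prop :=
  ∃ f : OnePoint ℂ → OnePoint ℂ, Continuous f ∧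
    (∀ z : ℂ, Q.eval z ≠ 0 → f (OnePoint.some z) = OnePoint.some (P.eval z / Q.eval z)) ∧
    ∃ z : OnePoint ℂ, f z = z ∧
      (∃ U ∈ nhds z, ∀ w ∈ U, Filter.Tendsto (fun k : ℕ => f^[k] w) Filter.atTop (nhds z)) ∧
      ∀ c : OnePoint ℂ, (¬ ∃ U ∈ nhds c, Set.InjOn f U) →
        Filter.Tendsto (fun k : ℕ => f^[k] c) Filter.atTop (nhds z)

/-- The squared Bombieri-Weyl norm `∑ |a_k|^2 / binom(d, k)` of a polynomial of degree at most `d`
(the norm on forms of degree `d` invariant under the rotations of the sphere). -/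
noncomputable def weyl (d : ℕ) (P : Polynomial ℂ) : ℝ :=
  ∑ k ∈ Finset.range (d + 1), ‖P.coeff k‖ ^ 2 / (d.choose k : ℝ)

/-- For every `ε > 0` and every sufficiently large `d`, every nonzero pair `(P, Q)` of polynomials
of degree at most `d` is close, with relative error `ε` in the squared Bombieri-Weyl norm, to a pair
`(P', Q')` defining a hyperbolic rational map of degree exactly `d`, all of whose critical points
are attracted to one attracting fixed point. -/
theorem result (ε : ℝ) (hε : 0 < ε) : ∃ D : ℕ, ∀ d : ℕ, D ≤ d → ∀ P Q : Polynomial ℂ,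
    P.natDegree ≤ d → Q.natDegree ≤ d → (P ≠ 0 ∨ Q ≠ 0) →
    ∃ P' Q' : Polynomial ℂ, IsCoprime P' Q' ∧ max P'.natDegree Q'.natDegree = d ∧
      IsHyperbolicOne P' Q' ∧
      weyl d (P - P') + weyl d (Q - Q') ≤ ε * (weyl d P + weyl d Q) := by
  obtain ⟨D, hD⟩ := Filter.eventually_atTop.1 (Pool.Agent.H91.LD.large_degree_ev ε hε)
  exact ⟨D, fun d hd P Q hP hQ h0 => hD d hd P Q hP hQ h0⟩

end Pool.Agent.H91.Old.LargeDegree
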