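import Mathlib
import Pool.Agent.H84.UC.FinalNet

/-!
# Long compositions of rational maps: hyperbolicity is asymptotically dense

For all large `n`, uniformly in the `n`-tuple, every `n`-tuple of rational maps of degree `d` is
`ε`-close to one with hyperbolic composition.
-/

set_option autoImplicit false

namespace Pool.Agent.Results.MP_8f2e1c_an.UniformCompositions

open Polynomial
open scoped ComplexConjugate

/-- `f` is the self-map of the Riemann sphere given by the rational function `P/Q`. -/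
def Represents (P Q : Polynomial ℂ) (f : OnePoint ℂ → OnePoint ℂ) : Prop :=
  Continuous f ∧ ∀ z : ℂ, Q.eval z ≠ 0 → f (OnePoint.some z) = OnePoint.some (P.eval z / Q.eval z)

/-- The polynomial with coefficient vector `v`. -/
noncomputable def poly {d : ℕ} (v : Fin (d + 1) → ℂ) : Polynomial ℂ := ∑ i, C (v i) * X ^ (i : ℕ)

/-- The numerator of `R ∘ (P/Q)`, where `R` is the rotation `z ↦ (a z - b̄) / (b z + ā)`. -/
noncomputable def rotNum (a b : ℂ) (P Q : Polynomial ℂ) : Polynomial ℂ :=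
  C a * P - C (conj b) * Q

/-- The denominator of `R ∘ (P/Q)`, where `R` is the rotation `z ↦ (a z - b̄) / (b z + ā)`. -/
noncomputable def rotDen (a b : ℂ) (P Q : Polynomial ℂ) : Polynomial ℂ :=
  C b * P + C (conj a) * Q

/-- `f` is hyperbolic, in the words of the frozen statement `S05373`: every critical point
(point where `f` is not locally injective) is attracted to an attracting periodic cycle. -/
def Hyperbolic (f : OnePoint ℂ → OnePoint ℂ) : Prop :=
  ∀ c : OnePoint ℂ, (¬ ∃ U ∈ nhds c, Set.InjOn f U) →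
    ∃ z : OnePoint ℂ, ∃ n : ℕ, 0 < n ∧ f^[n] z = z ∧
      (∃ U ∈ nhds z, ∀ w ∈ U,
        Filter.Tendsto (fun k : ℕ => f^[n * k] w) Filter.atTop (nhds z)) ∧
      Filter.Tendsto (fun k : ℕ => f^[n * k] c) Filter.atTop (nhds z)

/-- `compose f n = f (n-1) ∘ ... ∘ f 1 ∘ f 0` -/
def compose (f : ℕ → OnePoint ℂ → OnePoint ℂ) : ℕ → OnePoint ℂ → OnePoint ℂ
  | 0 => id
  | n + 1 => f n ∘ compose f n

/-- Let `d ≥ 2`, `ε > 0`, `M ≥ 1`, and let `K` be a compact set of coefficient pairs `(P, Q)`, coprime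
and of degree exactly `d`.  There is `N` such that for all `n ≥ N` and all words
`(P 0, Q 0), ..., (P (n-1), Q (n-1))` of pairs of polynomials of degree at most `d` with coefficients
of modulus at most `1` there are rational maps `P' j / Q' j` of degree exactly `d`, coefficientwise
`ε`-close to them, whose composition in this order is hyperbolic.  Moreover the new pair is
`R j ∘ (P j / Q j)`, for a rotation `R j` that is `ε`-close to the identity, whenever `(P j, Q j)` is
in `K`, and at most `n / M` of the rotations `R j` are different from the identity. -/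
theorem result (d : ℕ) (hd : 2 ≤ d) (K : Set ((Fin (d + 1) → ℂ) × (Fin (d + 1) → ℂ)))
    (hK : IsCompact K)
    (hKd : ∀ p ∈ K, IsCoprime (poly p.1) (poly p.2) ∧
      max (poly p.1).natDegree (poly p.2).natDegree = d)
    (ε : ℝ) (hε : 0 < ε) (M : ℕ) (hM : 1 ≤ M) :
    ∃ N : ℕ, ∀ n ≥ N, ∀ p : ℕ → (Fin (d + 1) → ℂ) × (Fin (d + 1) → ℂ),
      (∀ j i, ‖(p j).1 i‖ ≤ 1 ∧ ‖(p j).2 i‖ ≤ 1) →
      ∃ (a b : ℕ → ℂ) (P' Q' : ℕ → Polynomial ℂ) (f : ℕ → OnePoint ℂ → OnePoint ℂ),
        (∀ j, IsCoprime (P' j) (Q' j) ∧ max (P' j).natDegree (Q' j).natDegree = d ∧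
          (∀ i, ‖(P' j).coeff i - (poly (p j).1).coeff i‖ < ε ∧
            ‖(Q' j).coeff i - (poly (p j).2).coeff i‖ < ε) ∧
          Represents (P' j) (Q' j) (f j)) ∧
        Hyperbolic (compose f n) ∧
        (∀ j, ‖a j‖ ^ 2 + ‖b j‖ ^ 2 = 1 ∧ ‖a j - 1‖ < ε ∧ ‖b j‖ < ε) ∧
        (∀ j, p j ∈ K → P' j = rotNum (a j) (b j) (poly (p j).1) (poly (p j).2) ∧
          Q' j = rotDen (a j) (b j) (poly (p j).1) (poly (p j).2)) ∧
        M * {j : ℕ | j < n ∧ ¬ (a j = 1 ∧ b j = 0)}.ncard ≤ n := by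
  have hcomp : ∀ (f : ℕ → OnePoint ℂ → OnePoint ℂ) (k : ℕ),
      compose f k = Pool.Agent.H35.NA.compN f k := by
    intro f k
    induction k with
    | zero => rfl
    | succ k ih => simp only [compose, Pool.Agent.H35.NA.compN, ih]
  obtain ⟨N, h⟩ := Pool.Agent.H84.UC.main_all hd hK hKd ε hε M hM
  refine ⟨N, fun n hn p hp => ?_⟩
  have hp' : ∀ j, ‖p j‖ ≤ 1 := by
    intro j
    rw [Prod.norm_def, max_le_iff, pi_norm_le_iff_of_nonneg zero_le_one,
      pi_norm_le_iff_of_nonneg zero_le_one]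
    exact ⟨fun i => (hp j i).1, fun i => (hp j i).2⟩
  obtain ⟨A, P', Q', h1, h2, h3, h4, h5⟩ := h n hn p hp'
  refine ⟨fun j => (A j).a, fun j => (A j).b, P', Q',
    fun j => Pool.Agent.H44.Fatou.rat (P' j) (Q' j),
    fun j => ⟨(h4 j).1, (h4 j).2.1, (h4 j).2.2, Pool.Agent.H84.UC.rat_represents (h4 j).1⟩, ?_,
    fun j => ⟨(A j).norm_sq, h1 j⟩, h3, ?_⟩
  · rw [hcomp]
    exact h5
  · have e : {j : ℕ | j < n ∧ ¬ ((A j).a = 1 ∧ (A j).b = 0)} = {j : ℕ | j < n ∧ A j ≠ 1} := by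
      ext j
      constructor
      · rintro ⟨h5, h6⟩
        refine ⟨h5, fun h7 => h6 ?_⟩
        rw [h7]
        exact ⟨rfl, rfl⟩
      · rintro ⟨h5, h6⟩
        exact ⟨h5, fun h7 => h6 (Pool.Agent.H84.UC.SU.ext h7.1 h7.2)⟩
    show M * {j : ℕ | j < n ∧ ¬ ((A j).a = 1 ∧ (A j).b = 0)}.ncard ≤ n
    rw [e]
    exact h2

end Pool.Agent.Results.MP_8f2e1c_an.UniformCompositions
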